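import Pool.Agent.Y576.LE.Sharp

/-!
# A Lie group with Lie exponent below three, and the least possible dimension

The Heisenberg group of dimension `5` has Lie exponent exactly `5 / 2 < 3`; no Lie group of
dimension at most four has Lie exponent less than three.
-/

set_option autoImplicit false

open scoped Manifold ContDiff
open Module

namespace Pool.Agent.Results.MP_1ece31_lc.MinimalDimensionFive

open Pool.Agent.W964.LieExp

/-- A Lie group of dimension at most four has Lie exponent at least three. -/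
theorem three_le_of_dim (A : RealLieGroup) (hd : finrank ℝ A.E ≤ 4) :
    (3 : EReal) ≤ A.lieExponent := by
  apply le_sInf
  rintro w ⟨S, T, U, m₁, m₂, m₃, hS, hT, hU, h, hpos, rfl⟩
  have h1 := Pool.Agent.Y576.LE.dims A hS hT hU h
  have h1' : m₁ + m₂ + m₃ ≤ finrank ℝ A.E := by omega
  have h2 : ((m₁ : ℝ) + m₂ + m₃) ≤ finrank ℝ A.E := by exact_mod_cast h1'
  have h3 : (rank A.E A.G : ℝ) ≤ finrank ℝ A.E := by
    exact_mod_cast Pool.Agent.Y576.LE.rank_le A
  have h4 : (3 : ℝ) ≤ (rank A.E A.G : ℝ) /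
      (((m₁ : ℝ) + m₂ + m₃) / 3 - ((finrank ℝ A.E : ℝ) - rank A.E A.G) / 2) := by
    rw [le_div_iff₀ hpos]
    linarith
  have h5 : ((3 : ℝ) : EReal) ≤ (((rank A.E A.G : ℝ) /
      (((m₁ : ℝ) + m₂ + m₃) / 3 - ((finrank ℝ A.E : ℝ) - rank A.E A.G) / 2) : ℝ) : EReal) :=
    EReal.coe_le_coe_iff.2 h4
  exact h5

theorem finrank_heis (n : ℕ) : finrank ℝ (Heis.lie n).E = 2 * n + 1 := by
  change finrank ℝ (EuclideanSpace ℝ (Fin n) × EuclideanSpace ℝ (Fin n) × ℝ) = 2 * n + 1
  rw [finrank_prod, finrank_prod, finrank_euclideanSpace_fin, finrank_self]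
  ring

theorem heis_lt (n : ℕ) (hn : 2 ≤ n) : (Heis.lie n).lieExponent < 3 := by
  rw [Pool.Agent.Y576.LE.lieExponent_heis n (by omega)]
  have hn' : (2 : ℝ) ≤ n := by exact_mod_cast hn
  have h1 : (2 + 1 / (n : ℝ) : ℝ) < 3 := by
    have : 1 / (n : ℝ) ≤ 1 / 2 := one_div_le_one_div_of_le (by norm_num) hn'
    linarith
  have h2 : ((2 + 1 / (n : ℝ) : ℝ) : EReal) < ((3 : ℝ) : EReal) := EReal.coe_lt_coe_iff.2 h1
  exact h2

/-- **There are Lie groups with Lie exponent below three.** The Heisenberg group of dimension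
`2 n + 1` has Lie exponent `2 + 1 / n` for every `n ≥ 1`, so it is less than three for all `n ≥ 2`;
and five is the least dimension of a Lie group whose Lie exponent is less than three. -/
theorem result :
    (∃ A : RealLieGroup, A.lieExponent < 3) ∧
    (∀ n : ℕ, 1 ≤ n → finrank ℝ (Heis.lie n).E = 2 * n + 1 ∧
      (Heis.lie n).lieExponent = ((2 + 1 / (n : ℝ) : ℝ) : EReal)) ∧
    IsLeast {d : ℕ | ∃ A : RealLieGroup, finrank ℝ A.E = d ∧ A.lieExponent < 3} 5 := by
  refine ⟨⟨Heis.lie 2, heis_lt 2 le_rfl⟩, fun n hn => ⟨finrank_heis n,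
    Pool.Agent.Y576.LE.lieExponent_heis n hn⟩, ⟨Heis.lie 2, ?_, heis_lt 2 le_rfl⟩, ?_⟩
  · rw [finrank_heis]
  · rintro d ⟨A, hA, hlt⟩
    by_contra hd
    exact absurd (three_le_of_dim A (by omega)) (not_le.2 hlt)

end Pool.Agent.Results.MP_1ece31_lc.MinimalDimensionFive
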